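import Mathlib
import Pool.Agent.H39.TO.Targets

/-!
# MP_397744_co: module BEA of the board `toh_modules`
-/

set_option autoImplicit false

namespace Pool.Agent.H10.TOH.BEA

open Pool.Agent.H57.CP Pool.Agent.H39.TO

variable {v : H3} {r a b : Equiv.Perm H3}

lemma g3_swap (r a b : Equiv.Perm H3) : G3 r a b = G3 r b a := by
  unfold G3
  rw [Set.pair_comm a b]

lemma sw (h : BStr v r a b) : BStr v r b a where
  ir := h.ir
  ia := h.ib
  ib := h.ia
  rr := h.rr
  aa := h.bb
  bb := h.aa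
  a1 := h.b1
  b1 := h.a1
  ab := h.ab.symm
  av := h.bv
  bv := h.av
  rv := h.rv
  st := by
    rw [g3_swap, Set.pair_comm]
    exact h.st
  fr := by
    rw [Set.pair_comm]
    exact h.fr
  ra := by
    rw [Set.pair_comm b a]
    exact h.rb
  rb := by
    rw [Set.pair_comm b a]
    exact h.ra
  di := by
    rw [g3_swap]
    exact h.di

lemma rrv (h : BStr v r a b) (x : H3) : r (r x) = x := by
  rw [← Equiv.Perm.mul_apply, h.rr, Equiv.Perm.one_apply]

lemma sub_ra (r a b : Equiv.Perm H3) {g : Equiv.Perm H3} (hg : g ∈ Subgroup.closure {r, a}) : g ∈ G3 r a b := by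
  refine Subgroup.closure_mono ?_ hg
  intro x hx
  rcases hx with hx | hx
  · exact Or.inl hx
  · exact Or.inr (Or.inl hx)

lemma fixe (h : BStr v r a b) {g : Equiv.Perm H3} (hg : g ∈ G3 r a b) (h1 : g v = v) (h2 : g (r v) = r v) :
    g = 1 := h.fr g (h.st g hg h1) h2

lemma r_mem3 (r a b : Equiv.Perm H3) : r ∈ G3 r a b := Subgroup.subset_closure (by simp)

lemma stab (h : BStr v r a b) {g : Equiv.Perm H3} (hg : g ∈ G3 r a b) (he : g '' {v, r v} = {v, r v}) :
    g = 1 ∨ g = r := by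
  rw [Set.image_pair, Set.pair_eq_pair_iff] at he
  rcases he with ⟨h1, h2⟩ | ⟨h1, h2⟩
  · exact Or.inl (fixe h hg h1 h2)
  · right
    have h3 : r * g = 1 := by
      apply fixe h (mul_mem (r_mem3 r a b) hg)
      · rw [Equiv.Perm.mul_apply, h1, rrv h]
      · rw [Equiv.Perm.mul_apply, h2]
    have h4 : r * (r * g) = r := by rw [h3, mul_one]
    rwa [← mul_assoc, h.rr, one_mul] at h4

lemma img_mul (g k : Equiv.Perm H3) (e : Set H3) : (g * k) '' e = g '' (k '' e) := by
  rw [Equiv.Perm.coe_mul, Set.image_comp]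

lemma img_r (h : BStr v r a b) : r '' {v, r v} = {v, r v} := by
  rw [Set.image_pair, rrv h, Set.pair_comm]

lemma img_a (h : BStr v r a b) : a '' {v, r v} = {v, a (r v)} := by
  rw [Set.image_pair, h.av]

lemma edges (h : BStr v r a b) : {e | e ∈ fc r a {v, r v} ∧ v ∈ e} = {{v, r v}, {v, a (r v)}} := by
  ext e
  simp only [Set.mem_ofPred_eq, Set.mem_insert_iff, Set.mem_singleton_iff]
  constructor
  · rintro ⟨⟨g, hg, rfl⟩, hv⟩
    have key : ∀ k ∈ Subgroup.closure {r, a}, k v = v → k '' {v, r v} = {v, r v} ∨ k '' {v, r v} = {v, a (r v)} := by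
      intro k hk hkv
      rcases h.ra k hk (h.st k (sub_ra r a b hk) hkv) with h1 | h1
      · left
        rw [h1]
        simp
      · right
        rw [h1, img_a h]
    rw [Set.image_pair] at hv
    rcases hv with hv | hv
    · exact key g hg hv.symm
    · rw [Set.mem_singleton_iff] at hv
      have h2 := key (g * r) (mul_mem hg (Subgroup.subset_closure (by simp))) (by
        rw [Equiv.Perm.mul_apply, ← hv])
      rwa [img_mul, img_r h] at h2
  · rintro (rfl | rfl)
    · exact ⟨⟨1, one_mem _, by simp⟩, by simp⟩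
    · exact ⟨⟨a, Subgroup.subset_closure (by simp), (img_a h).symm⟩, by simp⟩

lemma img_fc (x y : Equiv.Perm H3) (e : Set H3) {g : Equiv.Perm H3} (hg : g ∈ Subgroup.closure {x, y}) :
    (Set.image g) '' fc x y e = fc x y e := by
  ext z
  constructor
  · rintro ⟨_, ⟨k, hk, rfl⟩, rfl⟩
    exact ⟨g * k, mul_mem hg hk, (img_mul _ _ _).symm⟩
  · rintro ⟨k, hk, rfl⟩
    refine ⟨(g⁻¹ * k) '' e, ⟨g⁻¹ * k, mul_mem (inv_mem hg) hk, rfl⟩, ?_⟩
    rw [← img_mul, mul_inv_cancel_left]

lemma faces (h : BStr v r a b) (g : Equiv.Perm H3) (hg : g ∈ G3 r a b)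
    (hm : {v, r v} ∈ (Set.image g) '' fc r a {v, r v}) : (Set.image g) '' fc r a {v, r v} = fc r a {v, r v} := by
  obtain ⟨_, ⟨k, hk, rfl⟩, h1⟩ := hm
  rw [← img_mul] at h1
  have h2 := stab h (mul_mem hg (sub_ra r a b hk)) h1
  apply img_fc
  rcases h2 with h2 | h2
  · rw [eq_inv_of_mul_eq_one_left h2]
    exact inv_mem hk
  · rw [eq_mul_inv_of_mul_eq h2]
    exact mul_mem (Subgroup.subset_closure (by simp)) (inv_mem hk)

lemma arv (h : BStr v r a b) : r v ≠ a (r v) := by
  intro h1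
  exact h.a1 (h.fr a (Subgroup.subset_closure (by simp)) h1.symm)

theorem pf : T_BEA := by
  intro v r a b h
  refine ⟨fun g hg he => stab h hg he, edges h, edges (sw h), arv h, arv (sw h), ?_, faces h, ?_⟩
  · intro h1
    have h2 : b⁻¹ * a = 1 := by
      apply h.fr
      · exact mul_mem (inv_mem (Subgroup.subset_closure (by simp))) (Subgroup.subset_closure (by simp))
      · rw [Equiv.Perm.mul_apply, h1, Equiv.Perm.inv_eq_iff_eq]
    exact h.ab (inv_mul_eq_one.mp h2).symm
  · intro g hg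
    rw [g3_swap] at hg
    exact faces (sw h) g hg

end Pool.Agent.H10.TOH.BEA
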