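import Pool.Agent.H39.TO.Targets
import Pool.Agent.H7.CP.NCD
import Pool.Agent.H5.CP.NCE

/-!
# MP_397744_co: module D0A of the board `toh_modules`
-/

set_option autoImplicit false

namespace Pool.Agent.H10.TOH.D0A

open Pool.Agent.H57.CP Pool.Agent.H39.TO

open Pool.Agent.H7.CP (u0 u1 u2 a0symm a1symm a2symm sy_inv sy_one sy_mul act_mul act_one
  act_inv_act im2_mul im_mul im_one im2_one edge_pair face_orbit StF mem_StF stf_mem two_set)

/-- symmetries form a subgroup -/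
lemma cl_sy {K : Geo} {S : Set (Equiv.Perm H3)} (hS : ∀ g ∈ S, Sy K g) {g : Equiv.Perm H3}
    (hg : g ∈ Subgroup.closure S) : Sy K g := by
  induction hg using Subgroup.closure_induction with
  | mem x hx => exact hS x hx
  | one => exact sy_one K
  | mul x y _ _ hx hy => exact sy_mul hx hy
  | inv x _ hx => exact sy_inv hx

lemma pow_sy {K : Geo} {g : Equiv.Perm H3} (hg : Sy K g) (m : ℕ) : Sy K (g ^ m) := by
  induction m with
  | zero => rw [pow_zero]; exact sy_one K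
  | succ m ih => rw [pow_succ]; exact sy_mul ih hg

/-- the data: a base flag `Φ`, its 2-neighbour `Φ'` -/
structure Dat (K : Geo) (Φ Φ' : Fg) (a b c : Equiv.Perm H3) : Prop where
  sa : Sy K a
  sb : Sy K b
  sc : Sy K c
  a0 : A0 K Φ (act a Φ)
  a1 : A1 K Φ (act b Φ)
  a2 : A2 K Φ Φ'
  a1' : A1 K Φ' (act c Φ')
  a0' : A0 K Φ' (act a Φ')
  no : ¬ Eqv K Φ Φ'

lemma exd (hFLA : T_FLA) (hFLB : T_FLB) {K : Geo} (hK : IsGeo K) (hT : Two K) (i0 : In K 0) (i1 : In K 1)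
    (o2 : Out K 2) : ∃ Φ Φ' a b c, Dat K Φ Φ' a b c := by
  obtain ⟨Φ, _, hΦ, -, -⟩ := hT.two
  obtain ⟨Φ0, a0, -⟩ := (hFLA K hK Φ hΦ).1
  obtain ⟨Φ1, a1, -⟩ := (hFLA K hK Φ hΦ).2.1
  obtain ⟨Φ2, a2, -⟩ := (hFLA K hK Φ hΦ).2.2
  obtain ⟨Φ21, a21, -⟩ := (hFLA K hK Φ2 a2.2.1).2.1
  obtain ⟨a, sa, rfl⟩ := i0 _ _ a0
  obtain ⟨b, sb, rfl⟩ := i1 _ _ a1
  obtain ⟨c, sc, rfl⟩ := i1 _ _ a21
  refine ⟨Φ, Φ2, a, b, c, sa, sb, sc, a0, a1, a2, a21, ?_, o2 _ _ a2⟩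
  -- the flag `(v1, e, f')` is the 2-neighbour of `act a Φ`
  have hfl : Fl K ((act a Φ).1, Φ2.2.1, Φ2.2.2) := by
    refine ⟨?_, a2.2.1.2.1, a2.2.1.2.2⟩
    change (act a Φ).1 ∈ Φ2.2.1
    rw [← a2.2.2.2.1, a0.2.2.2.1]
    exact a0.2.1.1
  have hA : A2 K (act a Φ) ((act a Φ).1, Φ2.2.1, Φ2.2.2) := by
    refine ⟨a0.2.1, hfl, rfl, ?_, ?_⟩
    · change (act a Φ).2.1 = Φ2.2.1
      rw [← a0.2.2.2.1, a2.2.2.2.1]
    · change (act a Φ).2.2 ≠ Φ2.2.2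
      rw [← a0.2.2.2.2]
      exact a2.2.2.2.2
  have he : act a Φ2 = ((act a Φ).1, Φ2.2.1, Φ2.2.2) :=
    u2 hFLA hK ((hFLB K a sa _ _).2.2.2 a2) hA
  rw [he]
  refine ⟨a2.2.1, hfl, ?_, rfl, rfl⟩
  change Φ2.1 ≠ (act a Φ).1
  rw [← a2.2.2.1]
  exact a0.2.2.1

lemma sq0 (hFLA : T_FLA) (hFLB : T_FLB) {K : Geo} (hK : IsGeo K) {g : Equiv.Perm H3} (sg : Sy K g) {Φ : Fg}
    (h : A0 K Φ (act g Φ)) : act (g * g) Φ = Φ := by
  rw [act_mul]
  exact u0 hFLA hK ((hFLB K g sg _ _).2.1 h) (a0symm h)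

lemma sq1 (hFLA : T_FLA) (hFLB : T_FLB) {K : Geo} (hK : IsGeo K) {g : Equiv.Perm H3} (sg : Sy K g) {Φ : Fg}
    (h : A1 K Φ (act g Φ)) : act (g * g) Φ = Φ := by
  rw [act_mul]
  exact u1 hFLA hK ((hFLB K g sg _ _).2.2.1 h) (a1symm h)

/-- all flags -/
lemma all (hFLA : T_FLA) (hFLB : T_FLB) (hFLC : T_FLC) {K : Geo} (hK : IsGeo K) {Φ Φ' : Fg}
    {a b c : Equiv.Perm H3} (D : Dat K Φ Φ' a b c) (Ψ : Fg) (hΨ : Fl K Ψ) :
    ∃ g ∈ G3 a b c, Ψ = act g Φ ∨ Ψ = act g Φ' := by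
  have hpath := hFLC K hK Φ Ψ D.a0.1 hΨ
  clear hΨ
  have ma : a ∈ G3 a b c := Subgroup.subset_closure (by simp)
  have mb : b ∈ G3 a b c := Subgroup.subset_closure (by simp)
  have mc : c ∈ G3 a b c := Subgroup.subset_closure (by simp)
  have hS : ∀ g ∈ ({a, b, c} : Set (Equiv.Perm H3)), Sy K g := by
    intro g hg
    rcases hg with rfl | rfl | hg
    · exact D.sa
    · exact D.sb
    · rw [Set.mem_singleton_iff] at hg
      rw [hg]
      exact D.sc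
  induction hpath with
  | refl => exact ⟨1, one_mem _, Or.inl (act_one Φ).symm⟩
  | tail hpq hstep ih =>
    rename_i Θ Ψ
    obtain ⟨g, hg, hor⟩ := ih
    have sg : Sy K g := cl_sy hS hg
    rcases hor with rfl | rfl
    · rcases hstep with hs | hs | hs
      · refine ⟨g * a, mul_mem hg ma, Or.inl ?_⟩
        rw [act_mul]
        exact u0 hFLA hK hs ((hFLB K g sg _ _).2.1 D.a0)
      · refine ⟨g * b, mul_mem hg mb, Or.inl ?_⟩
        rw [act_mul]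
        exact u1 hFLA hK hs ((hFLB K g sg _ _).2.2.1 D.a1)
      · exact ⟨g, hg, Or.inr (u2 hFLA hK hs ((hFLB K g sg _ _).2.2.2 D.a2))⟩
    · rcases hstep with hs | hs | hs
      · refine ⟨g * a, mul_mem hg ma, Or.inr ?_⟩
        rw [act_mul]
        exact u0 hFLA hK hs ((hFLB K g sg _ _).2.1 D.a0')
      · refine ⟨g * c, mul_mem hg mc, Or.inr ?_⟩
        rw [act_mul]
        exact u1 hFLA hK hs ((hFLB K g sg _ _).2.2.1 D.a1')
      · exact ⟨g, hg, Or.inl (u2 hFLA hK hs ((hFLB K g sg _ _).2.2.2 (a2symm D.a2)))⟩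

/-- the flags at the vertex of `Φ` -/
lemma atv (hFLA : T_FLA) (hFLB : T_FLB) {K : Geo} (hK : IsGeo K) {Φ Φ' : Fg}
    {a b c : Equiv.Perm H3} (D : Dat K Φ Φ' a b c) (Ψ : Fg) (hΨ : Fl K Ψ) (hv : Ψ.1 = Φ.1) :
    ∃ g ∈ Subgroup.closure {b, c}, Ψ = act g Φ ∨ Ψ = act g Φ' := by
  obtain ⟨v, e, f⟩ := Φ
  obtain ⟨x, e', f'⟩ := Ψ
  have hx : x = v := hv
  subst hx
  have mb : b ∈ Subgroup.closure ({b, c} : Set (Equiv.Perm H3)) := Subgroup.subset_closure (by simp)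
  have mc : c ∈ Subgroup.closure ({b, c} : Set (Equiv.Perm H3)) := Subgroup.subset_closure (by simp)
  have hS : ∀ g ∈ ({b, c} : Set (Equiv.Perm H3)), Sy K g := by
    intro g hg
    rcases hg with rfl | hg
    · exact D.sb
    · rw [Set.mem_singleton_iff] at hg
      rw [hg]
      exact D.sc
  -- closed under 1-adjacency and 2-adjacency
  have c1 : ∀ Θ Ξ : Fg, A1 K Θ Ξ → (∃ g ∈ Subgroup.closure {b, c}, Θ = act g (x, e, f) ∨ Θ = act g Φ') →
      ∃ g ∈ Subgroup.closure {b, c}, Ξ = act g (x, e, f) ∨ Ξ = act g Φ' := by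
    rintro Θ Ξ hs ⟨g, hg, rfl | rfl⟩
    · refine ⟨g * b, mul_mem hg mb, Or.inl ?_⟩
      rw [act_mul]
      exact u1 hFLA hK hs ((hFLB K g (cl_sy hS hg) _ _).2.2.1 D.a1)
    · refine ⟨g * c, mul_mem hg mc, Or.inr ?_⟩
      rw [act_mul]
      exact u1 hFLA hK hs ((hFLB K g (cl_sy hS hg) _ _).2.2.1 D.a1')
  have c2 : ∀ Θ Ξ : Fg, A2 K Θ Ξ → (∃ g ∈ Subgroup.closure {b, c}, Θ = act g (x, e, f) ∨ Θ = act g Φ') →
      ∃ g ∈ Subgroup.closure {b, c}, Ξ = act g (x, e, f) ∨ Ξ = act g Φ' := by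
    rintro Θ Ξ hs ⟨g, hg, rfl | rfl⟩
    · exact ⟨g, hg, Or.inr (u2 hFLA hK hs ((hFLB K g (cl_sy hS hg) _ _).2.2.2 D.a2))⟩
    · exact ⟨g, hg, Or.inl (u2 hFLA hK hs ((hFLB K g (cl_sy hS hg) _ _).2.2.2 (a2symm D.a2)))⟩
  -- if one flag with edge `k` is in the set then all are
  have c3 : ∀ (k : Set H3) (f1 f2 : Set (Set H3)), Fl K (x, k, f1) → Fl K (x, k, f2) →
      (∃ g ∈ Subgroup.closure {b, c}, (x, k, f1) = act g (x, e, f) ∨ (x, k, f1) = act g Φ') →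
      ∃ g ∈ Subgroup.closure {b, c}, (x, k, f2) = act g (x, e, f) ∨ (x, k, f2) = act g Φ' := by
    intro k f1 f2 h1 h2 h3
    by_cases h : f1 = f2
    · rw [← h]
      exact h3
    · exact c2 _ _ ⟨h1, h2, rfl, rfl, h⟩ h3
  have hΦ : Fl K (x, e, f) := D.a0.1
  have heE : e ∈ K.E := (hK.fs f hΦ.2.2).1 hΦ.2.1
  have he'E : e' ∈ K.E := (hK.fs f' hΨ.2.2).1 hΨ.2.1
  have hxV : x ∈ K.V := Pool.Agent.H5.CP.mem_V hK heE hΦ.1
  have hpath := hK.cv x hxV e heE hΦ.1 e' he'E hΨ.1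
  have key : ∀ f1 : Set (Set H3), Fl K (x, e', f1) →
      ∃ g ∈ Subgroup.closure {b, c}, (x, e', f1) = act g (x, e, f) ∨ (x, e', f1) = act g Φ' := by
    clear hΨ he'E hv
    have hxe' : x ∈ e' ∧ ∀ f1 : Set (Set H3), Fl K (x, e', f1) →
      ∃ g ∈ Subgroup.closure {b, c}, (x, e', f1) = act g (x, e, f) ∨ (x, e', f1) = act g Φ' := by
      induction hpath with
      | refl =>
        refine ⟨hΦ.1, fun f1 h1 => c3 e f f1 hΦ h1 ⟨1, one_mem _, Or.inl (act_one _).symm⟩⟩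
      | tail hpq hstep ih =>
        rename_i k l
        obtain ⟨hxl, f0, hf0, hk, hl⟩ := hstep
        refine ⟨hxl, fun f1 h1 => ?_⟩
        have h2 := ih.2 f0 ⟨ih.1, hk, hf0⟩
        have hfl : Fl K (x, l, f0) := ⟨hxl, hl, hf0⟩
        apply c3 l f0 f1 hfl h1
        by_cases h : k = l
        · rw [← h]
          exact h2
        · have hfk : Fl K (x, k, f0) := ⟨ih.1, hk, hf0⟩
          have hA : A1 K (x, k, f0) (x, l, f0) := ⟨hfk, hfl, rfl, h, rfl⟩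
          exact c1 _ _ hA h2
    exact hxe'.2
  exact key f' hΨ

/-- walking around the face -/
lemma wf (hFLB : T_FLB) (hFLD : T_FLD) (hCYF : T_CYF) {K : Geo} {p : ℕ} (hK : IsGeo K) (hFS : FS K = {(p : ℕ∞)})
    {a b : Equiv.Perm H3} (sa : Sy K a) (sb : Sy K b) {Φ : Fg} (a0 : A0 K Φ (act a Φ)) (a1 : A1 K Φ (act b Φ)) :
    (∀ m : ℕ, ((a * b) ^ m) Φ.1 = Φ.1 ↔ p ∣ m) ∧ ∀ x ∈ K.V, ((a * b) ^ p) x = x := by
  have sR : Sy K (a * b) := sy_mul sa sb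
  have hcard : (vts Φ.2.2).encard = (p : ℕ∞) := by
    have h : (vts Φ.2.2).encard ∈ FS K := ⟨Φ.2.2, a0.1.2.2, rfl⟩
    rw [hFS] at h
    exact h
  obtain ⟨W, w2, w3⟩ : ∃ W : ℕ → Fg, (∀ m, W (2 * m) = act ((a * b) ^ m) Φ) ∧
      ∀ m, W (2 * m + 1) = act ((a * b) ^ m) (act a Φ) := by
    refine ⟨fun k => if k % 2 = 0 then act ((a * b) ^ (k / 2)) Φ else
      act ((a * b) ^ (k / 2)) (act a Φ), ?_, ?_⟩
    · intro m
      have e1 : (2 * m) % 2 = 0 := by omega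
      have e4 : (2 * m) / 2 = m := by omega
      simp only [if_pos e1, e4]
    · intro m
      have e1 : ¬ (2 * m + 1) % 2 = 0 := by omega
      have e4 : (2 * m + 1) / 2 = m := by omega
      simp only [if_neg e1, e4]
  have w0 : W 0 = Φ := by
    have h := w2 0
    rw [pow_zero, act_one] at h
    exact h
  have walk := hCYF K W (p : ℕ∞) hK (by
      intro k
      have e6 : 2 * k + 2 = 2 * (k + 1) := by ring
      rw [e6, w2, w2, w3]
      refine ⟨(hFLB K _ (pow_sy sR k) _ _).2.1 a0, ?_⟩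
      have h := (hFLB K _ (pow_sy sR k) _ _).2.2.1 ((hFLB K a sa _ _).2.2.1 a1)
      rw [← act_mul a b, ← act_mul _ (a * b), ← pow_succ] at h
      exact h) (by
      rw [w0]
      exact hcard)
  obtain ⟨c1, c2, -⟩ := walk
  have Sm : ∀ m : ℕ, ((a * b) ^ m) Φ.1 = Φ.1 ↔ p ∣ m := by
    intro m
    rcases Nat.eq_zero_or_pos m with rfl | hm
    · simp
    · have h := c1 m hm
      rw [w2 m, w0] at h
      constructor
      · intro h1
        obtain ⟨n, hn, hd⟩ := h.1 h1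
        have : p = n := by exact_mod_cast hn
        rw [this]
        exact hd
      · intro h1
        exact h.2 ⟨p, rfl, h1⟩
  refine ⟨Sm, ?_⟩
  have h1 : ((a * b) ^ p) Φ.1 = Φ.1 := (Sm p).2 (dvd_refl p)
  have h2 := c2 p (by rw [w2 p, w0]; exact h1)
  rw [w2 p, w0] at h2
  exact hFLD K hK ((a * b) ^ p) 1 (pow_sy sR p) (sy_one K) _ a0.1 (h2.trans (act_one _).symm)

/-- walking around the vertex -/
lemma wv (hFLB : T_FLB) (hFLD : T_FLD) (hCYV : T_CYV) {K : Geo} {q : ℕ} (hK : IsGeo K) (hDG : DG K = {(q : ℕ∞)})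
    {Φ Φ' : Fg} {a b c : Equiv.Perm H3} (D : Dat K Φ Φ' a b c) :
    (∀ m : ℕ, (∀ x ∈ K.V, ((b * c) ^ m) x = x) ↔ q ∣ 2 * m) ∧ 2 ∣ q := by
  have sR : Sy K (b * c) := sy_mul D.sb D.sc
  have hΦ : Fl K Φ := D.a0.1
  have heE : Φ.2.1 ∈ K.E := (hK.fs _ hΦ.2.2).1 hΦ.2.1
  have hv : Φ.1 ∈ K.V := Pool.Agent.H5.CP.mem_V hK heE hΦ.1
  have hcard : (eds K Φ.1).encard = (q : ℕ∞) := by
    have h : (eds K Φ.1).encard ∈ DG K := ⟨Φ.1, hv, rfl⟩
    rw [hDG] at h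
    exact h
  obtain ⟨W, w0, w1, w2, w3⟩ : ∃ W : ℕ → Fg, (∀ m, W (4 * m) = act ((b * c) ^ m) Φ) ∧
      (∀ m, W (4 * m + 1) = act ((b * c) ^ m) (act b Φ)) ∧
      (∀ m, W (4 * m + 2) = act ((b * c) ^ m) (act b Φ')) ∧
      ∀ m, W (4 * m + 3) = act ((b * c) ^ m) (act b (act c Φ')) := by
    refine ⟨fun k => if k % 4 = 0 then act ((b * c) ^ (k / 4)) Φ else
      if k % 4 = 1 then act ((b * c) ^ (k / 4)) (act b Φ) else
      if k % 4 = 2 then act ((b * c) ^ (k / 4)) (act b Φ') else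
      act ((b * c) ^ (k / 4)) (act b (act c Φ')), ?_, ?_, ?_, ?_⟩
    · intro m
      have e1 : (4 * m) % 4 = 0 := by omega
      have e4 : (4 * m) / 4 = m := by omega
      simp only [if_pos e1, e4]
    · intro m
      have e1 : ¬ (4 * m + 1) % 4 = 0 := by omega
      have e2 : (4 * m + 1) % 4 = 1 := by omega
      have e4 : (4 * m + 1) / 4 = m := by omega
      simp only [if_neg e1, if_pos e2, e4]
    · intro m
      have e1 : ¬ (4 * m + 2) % 4 = 0 := by omega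
      have e2 : ¬ (4 * m + 2) % 4 = 1 := by omega
      have e3 : (4 * m + 2) % 4 = 2 := by omega
      have e4 : (4 * m + 2) / 4 = m := by omega
      simp only [if_neg e1, if_neg e2, if_pos e3, e4]
    · intro m
      have e1 : ¬ (4 * m + 3) % 4 = 0 := by omega
      have e2 : ¬ (4 * m + 3) % 4 = 1 := by omega
      have e3 : ¬ (4 * m + 3) % 4 = 2 := by omega
      have e4 : (4 * m + 3) / 4 = m := by omega
      simp only [if_neg e1, if_neg e2, if_neg e3, e4]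
  have w00 : W 0 = Φ := by
    have h := w0 0
    rw [pow_zero, act_one] at h
    exact h
  have step : ∀ k, A1 K (W (2 * k)) (W (2 * k + 1)) ∧ A2 K (W (2 * k + 1)) (W (2 * k + 2)) := by
    intro k
    rcases Nat.even_or_odd' k with ⟨m, rfl | rfl⟩
    · have e1 : 2 * (2 * m) = 4 * m := by ring
      rw [e1, w0, w1, w2]
      have hs := pow_sy sR m
      exact ⟨(hFLB K _ hs _ _).2.2.1 D.a1, (hFLB K _ hs _ _).2.2.2 ((hFLB K b D.sb _ _).2.2.2 D.a2)⟩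
    · have e1 : 2 * (2 * m + 1) = 4 * m + 2 := by ring
      have e2 : 4 * m + 2 + 1 = 4 * m + 3 := by ring
      have e3 : 4 * m + 2 + 2 = 4 * (m + 1) := by ring
      rw [e1, e2, e3, w0, w2, w3]
      have hs := pow_sy sR m
      refine ⟨(hFLB K _ hs _ _).2.2.1 ((hFLB K b D.sb _ _).2.2.1 D.a1'), ?_⟩
      have h := (hFLB K _ hs _ _).2.2.2 ((hFLB K b D.sb _ _).2.2.2 ((hFLB K c D.sc _ _).2.2.2 (a2symm D.a2)))
      rw [← act_mul b c Φ, ← act_mul _ (b * c) Φ, ← pow_succ] at h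
      exact h
  obtain ⟨c1, c2, -⟩ := hCYV K W (q : ℕ∞) hK step (by rw [w00]; exact hcard)
  constructor
  · intro m
    rcases Nat.eq_zero_or_pos m with rfl | hm
    · simp
    · have e1 : 2 * (2 * m) = 4 * m := by ring
      have h := c1 (2 * m) (by omega)
      have h2 := c2 (2 * m)
      rw [e1, w0, w00] at h h2
      constructor
      · intro hx
        have h3 : (act ((b * c) ^ m) Φ).2.1 = Φ.2.1 := by
          change ((b * c) ^ m) '' Φ.2.1 = Φ.2.1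
          have : ∀ y ∈ Φ.2.1, ((b * c) ^ m) y = y := fun y hy =>
            hx y (Pool.Agent.H5.CP.mem_V hK heE hy)
          ext z
          constructor
          · rintro ⟨y, hy, rfl⟩
            rw [this y hy]
            exact hy
          · intro hz
            exact ⟨z, hz, this z hz⟩
        obtain ⟨n, hn, hd⟩ := h.1 h3
        have : q = n := by exact_mod_cast hn
        rw [this]
        exact hd
      · intro hd
        have h3 := h2 (h.2 ⟨q, rfl, hd⟩)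
        exact hFLD K hK ((b * c) ^ m) 1 (pow_sy sR m) (sy_one K) _ hΦ (h3.trans (act_one _).symm)
  · rcases Nat.even_or_odd' q with ⟨m, hm | hm⟩
    · exact ⟨m, hm⟩
    · exfalso
      have h := c2 q ((c1 q (by omega)).2 ⟨q, rfl, dvd_refl q⟩)
      have e1 : 2 * q = 4 * m + 2 := by rw [hm]; ring
      rw [e1, w2, w00] at h
      apply D.no
      have hs : Sy K ((b * c) ^ m * b) := sy_mul (pow_sy sR m) D.sb
      refine ⟨((b * c) ^ m * b)⁻¹, sy_inv hs, ?_⟩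
      have h5 : act ((b * c) ^ m * b) Φ' = Φ := by rw [act_mul]; exact h
      rw [← h5, act_inv_act]

/-- the vertices of the base flag -/
lemma base (hFLA : T_FLA) (hFLB : T_FLB) {K : Geo} (hK : IsGeo K) {Φ : Fg} {a : Equiv.Perm H3}
    (sa : Sy K a) (a0 : A0 K Φ (act a Φ)) :
    Φ.2.1 = {Φ.1, a Φ.1} ∧ Φ.1 ≠ a Φ.1 ∧ a (a Φ.1) = Φ.1 ∧ a '' Φ.2.1 = Φ.2.1 ∧ (Set.image a) '' Φ.2.2 = Φ.2.2 := by
  have heE : Φ.2.1 ∈ K.E := (hK.fs _ a0.1.2.2).1 a0.1.2.1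
  have h0 : a Φ.1 ∈ Φ.2.1 := by
    rw [a0.2.2.2.1]
    exact a0.2.1.1
  refine ⟨edge_pair hK heE a0.1.1 h0 a0.2.2.1, a0.2.2.1, ?_, a0.2.2.2.1.symm, a0.2.2.2.2.symm⟩
  have h := congrArg Prod.fst (sq0 hFLA hFLB hK sa a0)
  exact h

/-- the base face -/
lemma bf {K : Geo} (hK : IsGeo K) {v v1 : H3} {f : Set (Set H3)}
    {a b : Equiv.Perm H3} (hΦ : Fl K (v, {v, v1}, f)) (hav : a v = v1) (hae : a '' {v, v1} = {v, v1})
    (haf : (Set.image a) '' f = f) (a1 : A1 K (v, {v, v1}, f) (act b (v, {v, v1}, f))) :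
    f = fc a b {v, v1} := by
  have hbv : b v = v := a1.2.2.1.symm
  have hbe : b '' ({v, v1} : Set H3) ≠ {v, v1} := fun h => a1.2.2.2.1 h.symm
  have hbf : (Set.image b) '' f = f := a1.2.2.2.2.symm
  have ha : a ∈ StF f := mem_StF.2 haf
  have hb : b ∈ StF f := mem_StF.2 hbf
  have hR : a * b ∈ StF f := (StF f).mul_mem ha hb
  have h1 : f = {e | ∃ k : ℤ, e = ((a * b) ^ k : Equiv.Perm H3) '' {v, v1}} :=
    face_orbit hK hΦ.2.2 hΦ.2.1 hR (by rw [Equiv.Perm.mul_apply, hbv, hav]) (by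
    intro h
    apply hbe
    rw [im_mul] at h
    have h2 : a '' (b '' ({v, v1} : Set H3)) = a '' ({v, v1} : Set H3) := by rw [h, hae]
    exact Set.image_injective.2 a.injective h2)
  apply Set.Subset.antisymm
  · intro e he
    rw [h1] at he
    obtain ⟨k, rfl⟩ := he
    refine ⟨(a * b) ^ k, Subgroup.zpow_mem _ (mul_mem (Subgroup.subset_closure (by simp))
      (Subgroup.subset_closure (by simp))) k, rfl⟩
  · rintro _ ⟨g, hg, rfl⟩
    have hle : Subgroup.closure {a, b} ≤ StF f := by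
      rw [Subgroup.closure_le]
      rintro x (rfl | hx)
      · exact ha
      · rw [Set.mem_singleton_iff] at hx
        rw [hx]
        exact hb
    exact stf_mem (hle hg) hΦ.2.1

theorem pf (_hSYG : T_SYG) (hFLA : T_FLA) (hFLB : T_FLB) (hFLC : T_FLC) (hFLD : T_FLD)
    (_hEQV : T_EQV) (hCYF : T_CYF) (hCYV : T_CYV) : T_D0A := by
  intro K p q hK hT i0 i1 o2 hFS hDG
  obtain ⟨Φ, Φ', a, b, c, D⟩ := exd hFLA hFLB hK hT i0 i1 o2
  obtain ⟨k1, k2, k3, k4, k5⟩ := base hFLA hFLB hK D.sa D.a0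
  obtain ⟨l1, l2⟩ := wf hFLB hFLD hCYF hK hFS D.sa D.sb D.a0 D.a1
  obtain ⟨m1, m2⟩ := wf hFLB hFLD hCYF hK hFS D.sa D.sc D.a0' D.a1'
  obtain ⟨n1, n2⟩ := wv hFLB hFLD hCYV hK hDG D
  have hall := all hFLA hFLB hFLC hK D
  have hatv := atv hFLA hFLB hK D
  have haf' : (Set.image a) '' Φ'.2.2 = Φ'.2.2 := D.a0'.2.2.2.2.symm
  obtain ⟨v, e, f⟩ := Φ
  obtain ⟨v', e', f'⟩ := Φ'
  have hv' : v = v' := D.a2.2.2.1
  have he' : e = e' := D.a2.2.2.2.1
  subst hv' he'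
  simp only at k1 k2 k3 k4 k5 l1 l2 m1 m2 haf'
  have hpair : e = {v, a v} := k1
  have hS : ∀ g ∈ ({a, b, c} : Set (Equiv.Perm H3)), Sy K g := by
    intro g hg
    rcases hg with rfl | rfl | hg
    · exact D.sa
    · exact D.sb
    · rw [Set.mem_singleton_iff] at hg
      rw [hg]
      exact D.sc
  have hG : ∀ g ∈ G3 a b c, Sy K g := fun g hg => cl_sy hS hg
  have heE : e ∈ K.E := (hK.fs f D.a0.1.2.2).1 D.a0.1.2.1
  have hvV : v ∈ K.V := Pool.Agent.H5.CP.mem_V hK heE D.a0.1.1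
  have hff : f ≠ f' := D.a2.2.2.2.2
  have hbv : b v = v := D.a1.2.2.1.symm
  have hcv : c v = v := D.a1'.2.2.1.symm
  have hSbc : ∀ g ∈ ({b, c} : Set (Equiv.Perm H3)), Sy K g := by
    intro g hg
    rcases hg with rfl | hg
    · exact D.sb
    · rw [Set.mem_singleton_iff] at hg
      rw [hg]
      exact D.sc
  subst hpair
  refine ⟨v, a v, f, f', a, b, c, ⟨D.sa, D.sb, D.sc, D.a0.1, D.a2.2.1, k2, hff, rfl, k3, hbv, hcv, ?_, ?_, ?_,
    l1, l2, m1, m2, n1, n2, ?_, ?_, ?_, ?_, ?_, ?_, ?_⟩⟩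
  · -- aa
    intro x hx
    have h := hFLD K hK (a * a) 1 (sy_mul D.sa D.sa) (sy_one K) _ D.a0.1
      ((sq0 hFLA hFLB hK D.sa D.a0).trans (act_one _).symm) x hx
    exact h
  · intro x hx
    have h := hFLD K hK (b * b) 1 (sy_mul D.sb D.sb) (sy_one K) _ D.a0.1
      ((sq1 hFLA hFLB hK D.sb D.a1).trans (act_one _).symm) x hx
    exact h
  · intro x hx
    have h := hFLD K hK (c * c) 1 (sy_mul D.sc D.sc) (sy_one K) _ D.a0'.1
      ((sq1 hFLA hFLB hK D.sc D.a1').trans (act_one _).symm) x hx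
    exact h
  · -- stabilizer
    intro g hg hgv
    have hfl : Fl K (act g (v, {v, a v}, f)) := (hFLB K g (hG g hg) _ (v, {v, a v}, f)).1 D.a0.1
    obtain ⟨h, hh, h1 | h1⟩ := hatv _ hfl hgv
    · exact ⟨h, hh, hFLD K hK g h (hG g hg) (cl_sy hSbc hh) _ D.a0.1 h1⟩
    · exfalso
      apply D.no
      refine ⟨h⁻¹ * g, sy_mul (sy_inv (cl_sy hSbc hh)) (hG g hg), ?_⟩
      rw [act_mul, h1, act_inv_act]
  · -- vertices
    ext x
    constructor
    · intro hx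
      obtain ⟨k, hk, hxk⟩ := hK.ve x hx
      obtain ⟨j, hj, hkj⟩ := Pool.Agent.H5.CP.exists_face hK hk
      obtain ⟨g, hg, h | h⟩ := hall (x, k, j) ⟨hxk, hkj, hj⟩
      · exact ⟨g, hg, congrArg Prod.fst h⟩
      · exact ⟨g, hg, congrArg Prod.fst h⟩
    · rintro ⟨g, hg, rfl⟩
      exact ((hG g hg).v v).2 hvV
  · -- edges
    ext k
    constructor
    · intro hk
      obtain ⟨x, hxk⟩ := Pool.Agent.H5.CP.exists_vertex hK hk
      obtain ⟨j, hj, hkj⟩ := Pool.Agent.H5.CP.exists_face hK hk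
      obtain ⟨g, hg, h | h⟩ := hall (x, k, j) ⟨hxk, hkj, hj⟩
      · exact ⟨g, hg, congrArg (fun t => t.2.1) h⟩
      · exact ⟨g, hg, congrArg (fun t => t.2.1) h⟩
    · rintro ⟨g, hg, rfl⟩
      exact ((hG g hg).e _).2 heE
  · -- faces
    ext j
    constructor
    · intro hj
      obtain ⟨hsub, k, hkj⟩ := hK.fs j hj
      obtain ⟨x, hxk⟩ := Pool.Agent.H5.CP.exists_vertex hK (hsub hkj)
      obtain ⟨g, hg, h | h⟩ := hall (x, k, j) ⟨hxk, hkj, hj⟩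
      · exact ⟨g, hg, Or.inl (congrArg (fun t => t.2.2) h)⟩
      · exact ⟨g, hg, Or.inr (congrArg (fun t => t.2.2) h)⟩
    · rintro ⟨g, hg, rfl | rfl⟩
      · exact ((hG g hg).f _).2 D.a0.1.2.2
      · exact ((hG g hg).f _).2 D.a2.2.1.2.2
  · exact bf hK D.a0.1 rfl k4 k5 D.a1
  · exact bf hK D.a2.2.1 rfl k4 haf' D.a1'
  · rintro ⟨g, sg, g1, g2, g3⟩
    apply D.no
    refine ⟨g, sg, ?_⟩
    refine Prod.ext g1 (Prod.ext ?_ g3)
    change g '' ({v, a v} : Set H3) = {v, a v}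
    rw [Set.image_pair, g1, g2]

end Pool.Agent.H10.TOH.D0A
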